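import Pool.Agent.Helper29.E3.St1

/-!
# Project E3, module TS1: the type one sum in mean square
-/

set_option autoImplicit false

namespace Pool.Agent.Helper22.E3

open Finset
open Pool.Agent.Helper29.E3 Pool.Agent.Helper49.PC
open Pool.Agent.Helper48.BK (ex th lz Vz Pz gs nd Apx AdN Sol thd)

private lemma nd_add_int_TS1 (t : ℝ) (n : ℤ) : nd (t + n) = nd t := by
  unfold Pool.Agent.Helper48.BK.nd
  rw [round_add_intCast]
  push_cast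
  congr 1
  ring

private lemma gs_add_int_TS1 (X t : ℝ) (n : ℤ) : gs X (t + n) = gs X t := by
  unfold Pool.Agent.Helper48.BK.gs
  rw [nd_add_int_TS1]

/-- the numerator can be reduced modulo the denominator -/
private lemma red_TS1 (X β : ℝ) (h : ℤ) (q : ℕ) (hq : 1 ≤ q) :
    ∃ a ∈ range q, gs X (β - h / q) = gs X (β - (a : ℝ) / q) := by
  have hq0 : (q : ℤ) ≠ 0 := by omega
  have h1 := Int.emod_nonneg h hq0
  have h2 := Int.emod_lt_of_pos h (show (0 : ℤ) < q by omega)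
  obtain ⟨a, ha⟩ := Int.eq_ofNat_of_zero_le h1
  refine ⟨a, ?_, ?_⟩
  · rw [Finset.mem_range]
    omega
  · have h3 : (q : ℤ) * (h / q) + h % q = h := Int.mul_ediv_add_emod h q
    have h4 : (h : ℝ) = (q : ℝ) * ((h / (q : ℤ) : ℤ) : ℝ) + (a : ℝ) := by
      have h5 : (h : ℤ) = (q : ℤ) * (h / q) + (a : ℤ) := by rw [← ha]; exact h3.symm
      exact_mod_cast congrArg (fun z : ℤ => (z : ℝ)) h5
    have hqr : (q : ℝ) ≠ 0 := by
      have : (0 : ℝ) < q := by exact_mod_cast hq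
      exact this.ne'
    have h6 : β - (h : ℝ) / q = (β - (a : ℝ) / q) + ((-(h / (q : ℤ)) : ℤ) : ℝ) := by
      push_cast
      rw [h4]
      field_simp
      ring
    rw [h6, gs_add_int_TS1]

/-- one point -/
private lemma one_TS1 (X β : ℝ) (h : ℤ) (q Q : ℕ) (hq : 1 ≤ q) (hQ : q ≤ Q) :
    1 / (q : ℝ) ^ 2 * gs X (β - h / q) ^ 2 ≤
      ∑ r ∈ Icc 1 Q, 1 / (r : ℝ) ^ 2 * ∑ a ∈ range r, gs X (β - (a : ℝ) / r) ^ 2 := by
  obtain ⟨a, ha, hab⟩ := red_TS1 X β h q hq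
  rw [hab]
  have h1 : gs X (β - (a : ℝ) / q) ^ 2 ≤ ∑ a ∈ range q, gs X (β - (a : ℝ) / q) ^ 2 :=
    Finset.single_le_sum (f := fun a : ℕ => gs X (β - (a : ℝ) / q) ^ 2)
      (fun i _ => sq_nonneg _) ha
  have h2 : 1 / (q : ℝ) ^ 2 * ∑ a ∈ range q, gs X (β - (a : ℝ) / q) ^ 2 ≤
      ∑ r ∈ Icc 1 Q, 1 / (r : ℝ) ^ 2 * ∑ a ∈ range r, gs X (β - (a : ℝ) / r) ^ 2 :=
    Finset.single_le_sum
      (f := fun r : ℕ => 1 / (r : ℝ) ^ 2 * ∑ a ∈ range r, gs X (β - (a : ℝ) / r) ^ 2)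
      (fun i _ => mul_nonneg (by positivity) (Finset.sum_nonneg fun _ _ => sq_nonneg _))
      (Finset.mem_Icc.2 ⟨hq, hQ⟩)
  exact (mul_le_mul_of_nonneg_left h1 (by positivity)).trans h2

/-- all points -/
private lemma all_TS1 (hPTQ : StPTQ) (hSMQ : StSMQ) (hGQS : StGQS) (M D v J R : ℕ) (h : ℤ)
    (θ : ℝ) (hD : 1 ≤ D) (hR : 1 ≤ R) (hRv : 2 * R ≤ v) (hA : Apx θ h v)
    (q : ℕ → ℕ) (c : ℕ → ℤ) (hq : ∀ j ∈ range D, 1 ≤ q j ∧ q j ≤ 2 * J) :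
    ∑ j ∈ range D, 1 / (q j : ℝ) ^ 2 *
      gs ((D * M : ℕ) : ℝ) ((θ + j) / D - (c j : ℝ) / (q j : ℕ)) ^ 2 ≤
    (D : ℝ) ^ 2 * (1 + Real.log D) * (4 * R * (v : ℝ) ^ 2 + (M : ℝ) ^ 2 / R) +
      64 * (D : ℝ) ^ 2 * J := by
  have h1 : ∑ j ∈ range D, 1 / (q j : ℝ) ^ 2 *
      gs ((D * M : ℕ) : ℝ) ((θ + j) / D - (c j : ℝ) / (q j : ℕ)) ^ 2 ≤
      ∑ j ∈ range D, ∑ r ∈ Icc 1 (2 * J), 1 / (r : ℝ) ^ 2 * ∑ a ∈ range r,
        gs ((D * M : ℕ) : ℝ) ((θ + j) / D - (a : ℝ) / r) ^ 2 :=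
    Finset.sum_le_sum fun j hj => one_TS1 _ _ _ _ _ (hq j hj).1 (hq j hj).2
  have h2 : ∑ j ∈ range D, ∑ r ∈ Icc 1 (2 * J), 1 / (r : ℝ) ^ 2 * ∑ a ∈ range r,
        gs ((D * M : ℕ) : ℝ) ((θ + j) / D - (a : ℝ) / r) ^ 2 =
      ∑ r ∈ Icc 1 (2 * J), 1 / (r : ℝ) ^ 2 * ∑ a ∈ range r, ∑ j ∈ range D,
        gs ((D * M : ℕ) : ℝ) ((θ + j) / D - (a : ℝ) / r) ^ 2 := by
    rw [Finset.sum_comm]
    refine Finset.sum_congr rfl fun r _ => ?_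
    rw [← Finset.mul_sum, Finset.sum_comm]
  have h3 := hSMQ M D (2 * J) θ hD
  have h4 := hGQS M (2 * J) R v h θ hR hRv hA
  rw [h2] at h1
  refine h1.trans ?_
  have h5 : ∑ r ∈ Icc 1 (2 * J), 1 / (r : ℝ) ^ 2 * ∑ a ∈ range r, ∑ j ∈ range D,
        gs ((D * M : ℕ) : ℝ) ((θ + j) / D - (a : ℝ) / r) ^ 2 ≤ _ :=
    Finset.sum_le_sum fun r hr => mul_le_mul_of_nonneg_left
      (hPTQ M D r θ hD (Finset.mem_Icc.1 hr).1) (by positivity)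
  refine (h5.trans h3).trans ?_
  have h6 : (0 : ℝ) ≤ (D : ℝ) ^ 2 * (1 + Real.log D) := by
    have : 0 ≤ Real.log D := Real.log_nonneg (by exact_mod_cast hD)
    positivity
  have h7 := mul_le_mul_of_nonneg_left h4 h6
  push_cast
  linarith

theorem hTS1 (hGON : StGON) (hPTQ : StPTQ) (hSMQ : StSMQ) (hGQS : StGQS) (hMEA : StMEA) :
    StTS1 := by
  obtain ⟨C, hC, hG⟩ := hGON
  refine ⟨3200 + 288 * C ^ 2, by positivity, ?_⟩
  intro M D v J R h θ hM hD hDM hJ hJM hR hRv hA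
  -- approximations
  have hex : ∀ j : ℕ, ∃ (q : ℕ) (c : ℤ), 1 ≤ q ∧ q ≤ 2 * J ∧ IsCoprime c (q : ℤ) ∧
      |(θ + j) / D - c / q| ≤ 1 / (q * (2 * J : ℕ)) := fun j =>
    hMEA.1 (2 * J) ((θ + j) / D) (by omega)
  choose q c hq1 hq2 hcop habs using hex
  -- logarithms
  obtain ⟨L, hL⟩ : ∃ L : ℝ, L = Real.log M := ⟨_, rfl⟩
  have hM3 : (3 : ℝ) ≤ M := by exact_mod_cast hM
  have hM0 : (0 : ℝ) < M := by linarith
  have hD1 : (1 : ℝ) ≤ D := by exact_mod_cast hD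
  have hJ1 : (1 : ℝ) ≤ J := by exact_mod_cast hJ
  have hR1 : (1 : ℝ) ≤ R := by exact_mod_cast hR
  have hL1 : 1 ≤ L := by
    rw [hL, Real.le_log_iff_exp_le hM0]
    have := Real.exp_one_lt_d9
    linarith
  have hlD : Real.log D ≤ 2 * L := by
    have h1 : (D : ℝ) ≤ (M : ℝ) ^ 2 := by exact_mod_cast hDM
    have h2 := Real.log_le_log (by linarith) h1
    rw [Real.log_pow] at h2
    rw [hL]
    exact_mod_cast h2
  have hlD0 : 0 ≤ Real.log D := Real.log_nonneg hD1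
  have hlJ : Real.log J ≤ 4 * L := by
    have h1 : (J : ℝ) ≤ (M : ℝ) ^ 4 := by exact_mod_cast hJM
    have h2 := Real.log_le_log (by linarith) h1
    rw [Real.log_pow] at h2
    rw [hL]
    exact_mod_cast h2
  have hlJ0 : 0 ≤ Real.log J := Real.log_nonneg hJ1
  have hl2J : Real.log ((2 * J : ℕ) : ℝ) ≤ 5 * L := by
    push_cast
    rw [Real.log_mul (by norm_num) (by linarith)]
    have := Real.log_two_lt_d9
    linarith
  have hl2J0 : 0 ≤ Real.log ((2 * J : ℕ) : ℝ) := by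
    refine Real.log_nonneg ?_
    push_cast
    linarith
  -- one point
  have hone : ∀ j ∈ range D,
      (∑ k ∈ Icc 1 J, gs (((D * M : ℕ) : ℝ) / k) (k * ((θ + j) / D))) ^ 2 ≤
      50 * L ^ 2 * (1 / (q j : ℝ) ^ 2 *
        gs ((D * M : ℕ) : ℝ) ((θ + j) / D - (c j : ℝ) / (q j : ℕ)) ^ 2) +
        288 * C ^ 2 * L ^ 2 * (J : ℝ) ^ 2 := by
    intro j _
    have h1 := hG J (q j) (2 * J) (c j) ((D * M : ℕ) : ℝ) ((θ + j) / D) (hq1 j) (hq2 j) hJ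
      le_rfl (hcop j) (habs j) (Nat.cast_nonneg _)
    obtain ⟨G, hGd⟩ : ∃ G : ℝ, G = gs ((D * M : ℕ) : ℝ) ((θ + j) / D - (c j : ℝ) / (q j : ℕ)) :=
      ⟨_, rfl⟩
    obtain ⟨S, hS⟩ : ∃ S : ℝ,
      S = ∑ k ∈ Icc 1 J, gs (((D * M : ℕ) : ℝ) / k) (k * ((θ + j) / D)) := ⟨_, rfl⟩
    rw [← hGd, ← hS] at h1
    rw [← hGd, ← hS]
    have hgn : ∀ (N t : ℝ), 0 ≤ N → 0 ≤ gs N t := by
      intro N t hN
      unfold Pool.Agent.Helper48.BK.gs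
      split_ifs
      · exact hN
      · exact div_nonneg zero_le_one (abs_nonneg _)
    have hG0 : 0 ≤ G := by
      rw [hGd]
      exact hgn _ _ (Nat.cast_nonneg _)
    have hS0 : 0 ≤ S := by
      rw [hS]
      exact Finset.sum_nonneg fun k _ => hgn _ _ (by positivity)
    have hq0 : (0 : ℝ) < q j := by exact_mod_cast hq1 j
    have h2 : (1 + Real.log J) / (q j : ℕ) * G ≤ 5 * L * (G / q j) := by
      have h3 : (1 + Real.log J) / (q j : ℕ) * G = (1 + Real.log J) * (G / q j) := by ring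
      rw [h3]
      exact mul_le_mul_of_nonneg_right (by linarith) (by positivity)
    have h4 : C * ((2 * J : ℕ) : ℝ) * (1 + Real.log ((2 * J : ℕ) : ℝ)) ≤ 12 * C * L * J := by
      have h5 : C * ((2 * J : ℕ) : ℝ) * (1 + Real.log ((2 * J : ℕ) : ℝ)) ≤
          C * ((2 * J : ℕ) : ℝ) * (6 * L) :=
        mul_le_mul_of_nonneg_left (by linarith) (by positivity)
      refine h5.trans (le_of_eq ?_)
      push_cast
      ring
    have h6 : S ≤ 5 * L * (G / q j) + 12 * C * L * J := by linarith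
    have h7 : S ^ 2 ≤ (5 * L * (G / q j) + 12 * C * L * J) ^ 2 :=
      pow_le_pow_left₀ hS0 h6 2
    have h8 : (5 * L * (G / q j) + 12 * C * L * J) ^ 2 ≤
        2 * (5 * L * (G / q j)) ^ 2 + 2 * (12 * C * L * J) ^ 2 := by
      nlinarith [sq_nonneg (5 * L * (G / q j) - 12 * C * L * J)]
    refine (h7.trans h8).trans (le_of_eq ?_)
    field_simp
    ring
  have hall := all_TS1 hPTQ hSMQ hGQS M D v J R h θ hD hR hRv hA q c
    (fun j _ => ⟨hq1 j, hq2 j⟩)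
  refine (Finset.sum_le_sum hone).trans ?_
  rw [Finset.sum_add_distrib, ← Finset.mul_sum, Finset.sum_const, Finset.card_range,
    nsmul_eq_mul, ← hL]
  have h9 : 50 * L ^ 2 * (∑ j ∈ range D, 1 / (q j : ℝ) ^ 2 *
      gs ((D * M : ℕ) : ℝ) ((θ + j) / D - (c j : ℝ) / (q j : ℕ)) ^ 2) ≤
      50 * L ^ 2 * ((D : ℝ) ^ 2 * (1 + Real.log D) * (4 * R * (v : ℝ) ^ 2 + (M : ℝ) ^ 2 / R) +
      64 * (D : ℝ) ^ 2 * J) := mul_le_mul_of_nonneg_left hall (by positivity)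
  have h10 : 50 * L ^ 2 * ((D : ℝ) ^ 2 * (1 + Real.log D) *
      (4 * R * (v : ℝ) ^ 2 + (M : ℝ) ^ 2 / R) + 64 * (D : ℝ) ^ 2 * J) ≤
      50 * L ^ 2 * ((D : ℝ) ^ 2 * (3 * L) *
      (4 * R * (v : ℝ) ^ 2 + (M : ℝ) ^ 2 / R) + 64 * (D : ℝ) ^ 2 * (J * L)) := by
    refine mul_le_mul_of_nonneg_left (add_le_add ?_ ?_) (by positivity)
    · refine mul_le_mul_of_nonneg_right ?_ (by positivity)
      exact mul_le_mul_of_nonneg_left (by linarith) (by positivity)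
    · refine mul_le_mul_of_nonneg_left ?_ (by positivity)
      nlinarith
  have h11 : 50 * L ^ 2 * ((D : ℝ) ^ 2 * (3 * L) *
      (4 * R * (v : ℝ) ^ 2 + (M : ℝ) ^ 2 / R) + 64 * (D : ℝ) ^ 2 * (J * L)) =
      L ^ 3 * (600 * ((D : ℝ) ^ 2 * R * (v : ℝ) ^ 2) + 150 * (((D : ℝ) * M) ^ 2 / R) +
        3200 * ((D : ℝ) ^ 2 * J)) := by ring
  have h12 : (D : ℝ) * (288 * C ^ 2 * L ^ 2 * (J : ℝ) ^ 2) ≤
      L ^ 3 * (288 * C ^ 2 * (D * (J : ℝ) ^ 2)) := by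
    have h13 : L ^ 2 ≤ L ^ 3 := pow_le_pow_right₀ hL1 (by norm_num)
    have h14 : (D : ℝ) * (288 * C ^ 2 * L ^ 2 * (J : ℝ) ^ 2) =
        L ^ 2 * (288 * C ^ 2 * (D * (J : ℝ) ^ 2)) := by ring
    rw [h14]
    exact mul_le_mul_of_nonneg_right h13 (by positivity)
  have t1 : 0 ≤ (D : ℝ) ^ 2 * R * (v : ℝ) ^ 2 := by positivity
  have t2 : 0 ≤ ((D : ℝ) * M) ^ 2 / R := by positivity
  have t3 : 0 ≤ (D : ℝ) ^ 2 * J := by positivity
  have t4 : 0 ≤ (D : ℝ) * (J : ℝ) ^ 2 := by positivity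
  have t5 : 0 ≤ C ^ 2 := by positivity
  have hfin : L ^ 3 * (600 * ((D : ℝ) ^ 2 * R * (v : ℝ) ^ 2) + 150 * (((D : ℝ) * M) ^ 2 / R) +
        3200 * ((D : ℝ) ^ 2 * J)) + L ^ 3 * (288 * C ^ 2 * (D * (J : ℝ) ^ 2)) ≤
      L ^ 3 * ((3200 + 288 * C ^ 2) * ((D : ℝ) ^ 2 * R * (v : ℝ) ^ 2 + ((D : ℝ) * M) ^ 2 / R +
        (D : ℝ) ^ 2 * J + D * (J : ℝ) ^ 2)) := by
    rw [← mul_add]
    refine mul_le_mul_of_nonneg_left ?_ (by positivity)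
    have u1 := mul_nonneg t5 t1
    have u2 := mul_nonneg t5 t2
    have u3 := mul_nonneg t5 t3
    nlinarith
  calc _ ≤ _ := add_le_add ((h9.trans h10).trans_eq h11) h12
    _ ≤ _ := hfin
    _ = _ := by ring

end Pool.Agent.Helper22.E3
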